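import Mathlib

namespace Pool.Agent.TH421.AC

lemma sv_alg {X S J V V0 Q U2 U0 r η T : ℝ} (hS1 : 1 / 2 ≤ S) (hS2 : S ≤ 2) (hJ0 : 0 ≤ J)
    (hη : 0 < η) (hη1 : η ≤ 1) (h1 : |X| * S ≤ 2 * η + J) (h2 : J ^ 2 ≤ V * Q) (hV : 0 ≤ V)
    (hV0 : V ≤ V0) (hQ0 : 0 ≤ Q) (hQ : Q ≤ S ^ 2 * U2 + r) (hU : U2 ≤ U0) (hU0 : 0 ≤ U0)
    (hr : r ≤ η * (2 + T)) (hT : 0 ≤ T) :
    X ^ 2 ≤ V * U2 + η * (4 * (V0 * (2 + T) + 4 * (V0 * (4 * U0 + (2 + T))) + 8)) := by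
  have hVV : 0 ≤ V0 := hV.trans hV0
  obtain ⟨E, hE⟩ : ∃ E : ℝ, E = S ^ 2 * U2 + r := ⟨_, rfl⟩
  have E0 : 0 ≤ E := by rw [hE]; linarith
  have S4 : S ^ 2 ≤ 4 := by nlinarith
  have S14 : 1 / 4 ≤ S ^ 2 := by nlinarith
  have rT : r ≤ 2 + T := hr.trans (by nlinarith)
  have E1 : E ≤ 4 * U0 + (2 + T) := by
    have : S ^ 2 * U2 ≤ 4 * U0 := by
      calc S ^ 2 * U2 ≤ S ^ 2 * U0 := mul_le_mul_of_nonneg_left hU (sq_nonneg _)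
        _ ≤ 4 * U0 := mul_le_mul_of_nonneg_right S4 hU0
    rw [hE]; linarith
  have a1 : (|X| * S) ^ 2 ≤ (2 * η + J) ^ 2 :=
    pow_le_pow_left₀ (mul_nonneg (abs_nonneg _) (by linarith)) h1 2
  have a2 : J ≤ 1 + J ^ 2 := by nlinarith [sq_nonneg (J - 1)]
  have a3 : (2 * η + J) ^ 2 ≤ J ^ 2 + 4 * η * J ^ 2 + 8 * η := by nlinarith
  have a4 : J ^ 2 ≤ V * E := h2.trans (mul_le_mul_of_nonneg_left (by rw [hE]; exact hQ) hV)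
  have a5 : V * E ≤ V0 * (4 * U0 + (2 + T)) := mul_le_mul hV0 E1 E0 hVV
  have a6 : 4 * η * J ^ 2 ≤ 4 * η * (V0 * (4 * U0 + (2 + T))) :=
    mul_le_mul_of_nonneg_left (a4.trans a5) (by positivity)
  have a7 : V * r ≤ η * (V0 * (2 + T)) := by
    have h3 : V * r ≤ V * (η * (2 + T)) := mul_le_mul_of_nonneg_left hr hV
    have h4 : V * (η * (2 + T)) ≤ V0 * (η * (2 + T)) :=
      mul_le_mul_of_nonneg_right hV0 (by positivity)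
    linarith [h3, h4, (by ring : V0 * (η * (2 + T)) = η * (V0 * (2 + T)))]
  have a8 : V * E = S ^ 2 * (V * U2) + V * r := by rw [hE]; ring
  obtain ⟨R, hR⟩ : ∃ R : ℝ, R = V0 * (2 + T) + 4 * (V0 * (4 * U0 + (2 + T))) + 8 := ⟨_, rfl⟩
  have R0 : 0 ≤ R := by rw [hR]; positivity
  have a9 : X ^ 2 * S ^ 2 ≤ S ^ 2 * (V * U2) + η * R := by
    have : X ^ 2 * S ^ 2 = (|X| * S) ^ 2 := by rw [mul_pow, sq_abs]
    rw [this, hR]; nlinarith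
  rw [← hR]
  have a10 : η * R ≤ S ^ 2 * (η * (4 * R)) := by
    have : 0 ≤ (4 * S ^ 2 - 1) * (η * R) := mul_nonneg (by linarith) (by positivity)
    nlinarith
  have S0 : 0 < S ^ 2 := by linarith
  have a11 : S ^ 2 * X ^ 2 ≤ S ^ 2 * (V * U2 + η * (4 * R)) := by nlinarith
  exact le_of_mul_le_mul_left a11 S0

end Pool.Agent.TH421.AC
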