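import Pool.Agent.TH421.AZ.Sm
import Pool.Agent.TH421.AZ.Alg

/-!
Project AZ (helper421): small values of eigenfunctions and the fourth moment.
-/

set_option autoImplicit false
open MeasureTheory Filter Topology Complex ProbabilityTheory
open scoped ContDiff ENNReal

namespace Pool.Agent.TH421.AC

open Pool.Agent.W745.RW Pool.Agent.TH294.RS Pool.Agent.TH294.RG Pool.Agent.TH421.DF

noncomputable section

variable {B : Set ℂ} {h : ℕ → ℝ} {m : ℂ → ℝ} {ν : Kernel ℂ ℝ}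

lemma RawG.mc (hB : IsOpen B) {a : ℂ → ℝ} {u : ℕ → ℂ → ℝ} {M : ℕ → ℂ → ℂ} (H : RawG B a h u M)
    (hb : ∀ K : Set ℂ, IsCompact K → K ⊆ B → ∃ C : ℝ, ∀ᶠ n in atTop, ∫ z in K, u n z ^ 4 ≤ C) :
    MC B h (cx u) := by
  have sm : ∀ n, ContDiffOn ℝ ∞ (fun z => (u n z : ℂ)) B := fun n => cxa (H.sm n)
  have hl : LB B 4 (cx u) := by
    refine ⟨sm, fun K hK hKB => ?_⟩
    obtain ⟨C, hC⟩ := hb K hK hKB
    refine ⟨C, hC.mono fun n hn => ?_⟩
    refine le_trans (le_of_eq ?_) hn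
    refine setIntegral_congr_fun hK.measurableSet fun z _ => ?_
    simp only [cx, Complex.norm_real, Real.norm_eq_abs]
    rw [Even.pow_abs (by decide)]
  have ha2 : ContDiffOn ℝ ∞ (fun z => ((a z : ℂ) ^ 2)⁻¹) B := by
    refine ContDiffOn.inv ((cxa H.sa).pow 2) fun z hz => ?_
    have := (H.pa z hz).ne'
    exact pow_ne_zero 2 (by exact_mod_cast this)
  have he : ∀ n, ∀ z ∈ B, (h n : ℂ) ^ 2 * ((a z : ℂ) ^ 2 * lap (fun z => (u n z : ℂ)) z) =
      - (u n z : ℂ) := by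
    intro n z hz
    rw [lap_re hB (H.sm n) hz]
    have h1 := H.eq n z hz
    have h2 : ((h n ^ 2 * (a z ^ 2 * lap (u n) z) + u n z : ℝ) : ℂ) = 0 := by rw [h1]; simp
    push_cast at h2
    linear_combination h2
  exact fun k => MK.sol hB H.hpos H.hlim hl ha2 (fun n z hz => by
    have h1 := he n z hz
    have h2 : (a z : ℂ) ^ 2 ≠ 0 := pow_ne_zero 2 (by exact_mod_cast (H.pa z hz).ne')
    have h3 : hL h (cx u) n z = ((a z : ℂ) ^ 2)⁻¹ * ((h n : ℂ) ^ 2 *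
        ((a z : ℂ) ^ 2 * lap (fun z => (u n z : ℂ)) z)) := by
      have h4 : ((a z : ℂ) ^ 2)⁻¹ * (a z : ℂ) ^ 2 = 1 := inv_mul_cancel₀ h2
      have h5 : hL h (cx u) n z = (h n : ℂ) ^ 2 * lap (fun z => (u n z : ℂ)) z := rfl
      rw [h5]
      linear_combination (-((h n : ℂ) ^ 2 * lap (fun z => (u n z : ℂ)) z)) * h4
    rw [h3, h1]
    show _ = -(((a z : ℂ) ^ 2)⁻¹ * (u n z : ℂ))
    ring) k

/-- weighted Cauchy-Schwarz -/
lemma wcs2 {φ F G : ℂ → ℝ} (hF : Integrable fun z => φ z * F z ^ 2)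
    (hG : Integrable fun z => φ z * G z ^ 2) (hFG : Integrable fun z => φ z * (F z * G z))
    (hφ0 : ∀ z, 0 ≤ φ z) :
    (∫ z, φ z * (F z * G z)) ^ 2 ≤ (∫ z, φ z * F z ^ 2) * ∫ z, φ z * G z ^ 2 := by
  have hd := discrim_le_zero (a := ∫ z, φ z * F z ^ 2) (b := -2 * ∫ z, φ z * (F z * G z))
    (c := ∫ z, φ z * G z ^ 2) (fun t => by
      have e : (∫ z, φ z * F z ^ 2) * (t * t) + (-2 * ∫ z, φ z * (F z * G z)) * t +
          (∫ z, φ z * G z ^ 2) = ∫ z, φ z * (t * F z - G z) ^ 2 := by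
        have i1 : Integrable (fun z => (t * t) * (φ z * F z ^ 2) + (-2 * t) * (φ z * (F z * G z))) :=
          (hF.const_mul _).add (hFG.const_mul _)
        have e2 : ∫ z, φ z * (t * F z - G z) ^ 2 = ∫ z, ((t * t) * (φ z * F z ^ 2) +
            (-2 * t) * (φ z * (F z * G z))) + φ z * G z ^ 2 := by
          congr 1; funext z; ring
        rw [e2, integral_add i1 hG, integral_add (hF.const_mul _) (hFG.const_mul _),
          integral_const_mul, integral_const_mul]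
        ring
      rw [e]
      exact integral_nonneg fun z => mul_nonneg (hφ0 z) (sq_nonneg _))
  unfold discrim at hd
  nlinarith

/-- the averaging coefficients -/
def av (L : ℕ) (k : ℤ) : ℂ := (L : ℂ)⁻¹ * (1 + sg k)

lemma av_sg' (L : ℕ) (k : ℤ) : sg k * av L k = av L k := by
  unfold av
  linear_combination (L : ℂ)⁻¹ * sg_sq k

lemma av_bd (L : ℕ) (k : ℤ) : ‖av L k‖ ≤ 2 * ‖(L : ℂ)⁻¹ * 1‖ := by
  unfold av
  rw [norm_mul, norm_mul, norm_one, mul_one]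
  have : ‖1 + sg k‖ ≤ 2 := (norm_add_le _ _).trans (by rw [norm_one, sg_norm]; norm_num)
  nlinarith [norm_nonneg ((L : ℂ)⁻¹)]

lemma av_sum {L : ℕ} (hL : 2 ≤ L) :
    1 / 2 ≤ ‖∑ k ∈ (Finset.Icc 1 L).map Nat.castEmbedding, av L k‖ ∧
    ‖∑ k ∈ (Finset.Icc 1 L).map Nat.castEmbedding, av L k‖ ≤ 2 := by
  have hL0 : (L : ℂ) ≠ 0 := by exact_mod_cast (by omega : L ≠ 0)
  have e : ∑ k ∈ (Finset.Icc 1 L).map Nat.castEmbedding, av L k =
      1 + (L : ℂ)⁻¹ * ∑ k ∈ Finset.Icc 1 L, sg (k : ℤ) := by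
    simp only [Finset.sum_map, Nat.castEmbedding_apply, av]
    rw [← Finset.mul_sum, Finset.sum_add_distrib, Finset.sum_const, Nat.card_Icc,
      Nat.add_sub_cancel, nsmul_eq_mul, mul_one, mul_add, inv_mul_cancel₀ hL0]
  have b : ‖(L : ℂ)⁻¹ * ∑ k ∈ Finset.Icc 1 L, sg (k : ℤ)‖ ≤ 1 / 2 := by
    rw [norm_mul, norm_inv, Complex.norm_natCast]
    have h1 : ((L : ℝ))⁻¹ ≤ 1 / 2 := by
      rw [inv_eq_one_div]
      exact one_div_le_one_div_of_le (by norm_num) (by exact_mod_cast hL)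
    have h2 := sum_sg L
    have h3 : (0 : ℝ) ≤ ((L : ℝ))⁻¹ := by positivity
    nlinarith [norm_nonneg (∑ k ∈ Finset.Icc 1 L, sg (k : ℤ))]
  rw [e]
  constructor
  · have h1 := norm_sub_norm_le (1 : ℂ) (-((L : ℂ)⁻¹ * ∑ k ∈ Finset.Icc 1 L, sg (k : ℤ)))
    rw [norm_neg, norm_one, sub_neg_eq_add] at h1
    linarith
  · have h1 := norm_add_le (1 : ℂ) ((L : ℂ)⁻¹ * ∑ k ∈ Finset.Icc 1 L, sg (k : ℤ))
    rw [norm_one] at h1
    linarith

/-- **Small values.** -/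
theorem small_core [IsMarkovKernel ν] {Ω : Set ℂ} (hΩ : IsOpen Ω)
    (hm : ∀ K : Set ℂ, IsCompact K → K ⊆ Ω → MemLp m 2 (volume.restrict K))
    (hp : ∀ᵐ z ∂(volume.restrict Ω), par ea (ν z) = 0) {a : ℂ → ℝ} {u : ℕ → ℂ → ℝ}
    (H : RawG Ω a h u (MM m ea ν)) {K : Set ℂ} (hK : IsCompact K) (hKΩ : K ⊆ Ω)
    {φ : ℂ → ℝ} (hφ : TF (interior K) φ) (hφ0 : ∀ z, 0 ≤ φ z)
    {T : ℝ} (hT : ∀ᶠ n in atTop, ∫ z in K, u n z ^ 4 ≤ T) {ε : ℝ} (hε : 0 < ε) :
    ∀ᶠ s in 𝓝[>] (0 : ℝ), ∀ᶠ n in atTop,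
      (∫ z, φ z * m z) ^ 2 ≤ (∫ z in {z | z ∈ Ω ∧ s < |u n z|}, φ z) *
        ((∫ z, φ z * u n z ^ 4) - 2 * ∫ z, φ z * m z ^ 2) + ε := by
  have hB : IsOpen (interior K) := isOpen_interior
  have hBΩ : interior K ⊆ Ω := interior_subset.trans hKΩ
  have hmB : ∀ K' : Set ℂ, IsCompact K' → K' ⊆ interior K → MemLp m 2 (volume.restrict K') :=
    fun K' hK' hKB => hm K' hK' (hKB.trans hBΩ)
  have hpB : ∀ᵐ z ∂(volume.restrict (interior K)), par ea (ν z) = 0 :=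
    ae_restrict_of_ae_restrict_of_subset hBΩ hp
  have HB : RawG (interior K) a h u (MM m ea ν) := H.cmp hBΩ (σ := id) tendsto_id
  have ciK : ∀ n, ContinuousOn (fun z => u n z ^ 4) K := fun n =>
    ((H.sm n).continuousOn.mono hKΩ).pow 4
  have hb : ∀ K' : Set ℂ, IsCompact K' → K' ⊆ interior K →
      ∃ C : ℝ, ∀ᶠ n in atTop, ∫ z in K', u n z ^ 4 ≤ C := fun K' hK' hKB =>
    ⟨T, hT.mono fun n hn => (setIntegral_mono_set ((ciK n).integrableOn_compact hK)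
      (ae_of_all _ fun z => by positivity)
      (ae_of_all _ (hKB.trans interior_subset))).trans hn⟩
  have A := HB.as hB (fun k => MM_ml ea_meas ea_norm hmB k) (fun z => by rw [MM_0, conj_ofReal]) hb
  have mc := RawG.mc hB HB hb
  have cu : ∀ n, ContinuousOn (u n) (interior K) := fun n => (HB.sm n).continuousOn
  have sm := fun k : ℕ => Sm.wn hB HB.hpos HB.hlim HB.sa hφ hφ0 cu mc k
  have hu : ∀ n z, (starRingEnd ℂ) ((u n z : ℂ)) = (u n z : ℂ) := fun n z => conj_ofReal _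
  have iφ : Integrable φ := hφ.1.continuous.integrable_of_hasCompactSupport hφ.2.1
  -- constants
  obtain ⟨Mφ, hMφ⟩ := hφ.2.1.exists_bound_of_continuousOn hφ.1.continuous.continuousOn
  have hφM : ∀ z, φ z ≤ |Mφ| := by
    intro z
    by_cases hz : z ∈ tsupport φ
    · exact (le_abs_self _).trans ((hMφ z hz).trans (le_abs_self _))
    · rw [image_eq_zero_of_notMem_tsupport hz]; exact abs_nonneg _
  obtain ⟨Am, hAm⟩ : ∃ Am : ℝ, Am = ∫ z, φ z * m z ^ 2 := ⟨_, rfl⟩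
  have Am0 : 0 ≤ Am := by
    rw [hAm]; exact integral_nonneg fun z => mul_nonneg (hφ0 z) (sq_nonneg _)
  have hA2 : ∫ z, φ z * (m z * m z) = Am := by
    rw [hAm]; congr 1; funext z; ring
  obtain ⟨X, hX⟩ : ∃ X : ℝ, X = ∫ z, φ z * m z := ⟨_, rfl⟩
  obtain ⟨V0, hV0⟩ : ∃ V0 : ℝ, V0 = ∫ z, φ z := ⟨_, rfl⟩
  have V00 : 0 ≤ V0 := by rw [hV0]; exact integral_nonneg hφ0
  obtain ⟨U0, hU0⟩ : ∃ U0 : ℝ, U0 = |Mφ| * |T| := ⟨_, rfl⟩
  have U00 : 0 ≤ U0 := by rw [hU0]; positivity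
  obtain ⟨Cs, hCs⟩ : ∃ Cs : ℝ, Cs = 4 * (V0 * (2 + |T|) + 4 * (V0 * (4 * U0 + (2 + |T|))) + 8) :=
    ⟨_, rfl⟩
  have Cs0 : 0 < Cs := by rw [hCs]; positivity
  obtain ⟨η, hη⟩ : ∃ η : ℝ, η = min 1 (ε / Cs) := ⟨_, rfl⟩
  have η0 : 0 < η := by rw [hη]; exact lt_min one_pos (by positivity)
  have η1 : η ≤ 1 := by rw [hη]; exact min_le_left _ _
  have ηC : η * Cs ≤ ε := by
    have : η ≤ ε / Cs := by rw [hη]; exact min_le_right _ _
    calc η * Cs ≤ ε / Cs * Cs := mul_le_mul_of_nonneg_right this Cs0.le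
      _ = ε := by field_simp
  -- the choice of L
  have swl := Sw_lim (m := m) (ν := ν) hB hmB hpB hφ (τ := fun _ => 1) (fun _ => norm_one)
  obtain ⟨L, hL, hL2⟩ := ((swl.eventually (gt_mem_nhds (show (0 : ℝ) < η / 4 by positivity))).and
    (eventually_ge_atTop 2)).exists
  obtain ⟨sL, hsL⟩ : ∃ sL : Finset ℤ, sL = (Finset.Icc 1 L).map Nat.castEmbedding := ⟨_, rfl⟩
  obtain ⟨S, hS⟩ : ∃ S : ℝ, S = ‖∑ k ∈ sL, av L k‖ := ⟨_, rfl⟩
  have S1 : 1 / 2 ≤ S := by rw [hS, hsL]; exact (av_sum hL2).1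
  have S2 : S ≤ 2 := by rw [hS, hsL]; exact (av_sum hL2).2
  have fn := fun K => fK_nn (M := MM m ea ν) hφ0 K
  have mid : ∑ k ∈ sL, ∑ l ∈ sL, ‖av L k‖ * ‖av L l‖ *
      (fK (MM m ea ν) φ (k - l) + fK (MM m ea ν) φ (0 - 0 + k + l)) ≤ η := by
    have h1 : ∑ k ∈ sL, ∑ l ∈ sL, ‖av L k‖ * ‖av L l‖ *
        (fK (MM m ea ν) φ (k - l) + fK (MM m ea ν) φ (0 - 0 + k + l)) ≤
        4 * Sw (MM m ea ν) φ sL (fun k => (L : ℂ)⁻¹ * 1) := by
      unfold Sw
      rw [Finset.mul_sum]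
      refine Finset.sum_le_sum fun k _ => ?_
      rw [Finset.mul_sum]
      refine Finset.sum_le_sum fun l _ => ?_
      have h2 : 0 ≤ fK (MM m ea ν) φ (k - l) + fK (MM m ea ν) φ (0 - 0 + k + l) :=
        add_nonneg (fn _) (fn _)
      have h3 := mul_le_mul (av_bd L k) (av_bd L l) (norm_nonneg _) (by positivity)
      have h4 := mul_le_mul_of_nonneg_right h3 h2
      refine h4.trans (le_of_eq ?_)
      ring
    rw [hsL] at h1 ⊢
    refine h1.trans ?_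
    have := hL.le
    linarith
  -- the function
  obtain ⟨F, hF⟩ : ∃ F : ℕ → ℂ → ℂ, F = FA (ww a h (fun n z => (u n z : ℂ))) 0 0 sL (av L) :=
    ⟨_, rfl⟩
  have wc : ∀ k n, ContinuousOn (ww a h (fun n z => (u n z : ℂ)) k n) (interior K) := fun k n =>
    (HB.lb2 hB k).co n
  have cF : ∀ n, ContinuousOn (F n) (interior K) := by
    intro n
    rw [hF]
    unfold FA
    exact continuousOn_finsetSum _ fun k _ => continuousOn_const.mul ((wc _ n).mul (wc _ n))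
  -- second moment
  have Q := FA_sharp hm hp H hK hKΩ hφ hφ0 0 0 (by decide) sL (av L) η0
  -- first moment
  have sumsg : ∑ k ∈ sL, sg k * av L k = ∑ k ∈ sL, av L k :=
    Finset.sum_congr rfl fun k _ => av_sg' L k
  have lim1 : Tendsto (fun n => ‖∫ z, (φ z : ℂ) * F n z‖) atTop (𝓝 (|X| * S)) := by
    have h1 : ∀ n, ∫ z, (φ z : ℂ) * F n z = ∑ k ∈ sL, av L k * ∫ z, (φ z : ℂ) *
        (ww a h (fun n z => (u n z : ℂ)) (0 + k) n z * ww a h (fun n z => (u n z : ℂ)) (0 - k) n z) := by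
      intro n
      have ii : ∀ k, Integrable (fun z => av L k * ((φ z : ℂ) *
          (ww a h (fun n z => (u n z : ℂ)) (0 + k) n z *
          ww a h (fun n z => (u n z : ℂ)) (0 - k) n z))) := fun k =>
        (TF.cint hφ ((wc _ n).mul (wc _ n))).const_mul _
      simp only [← integral_const_mul]
      rw [← integral_finsetSum _ fun k _ => ii k]
      congr 1; funext z
      rw [hF]; unfold FA
      rw [Finset.mul_sum]
      refine Finset.sum_congr rfl fun k _ => ?_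
      ring
    have h2 : ∀ k, Tendsto (fun n => av L k * ∫ z, (φ z : ℂ) *
        (ww a h (fun n z => (u n z : ℂ)) (0 + k) n z *
        ww a h (fun n z => (u n z : ℂ)) (0 - k) n z)) atTop (𝓝 (av L k * (X : ℂ))) := by
      intro k
      have h3 := ((A.two hB (0 + k) (0 - k)).lim φ hφ).const_mul (av L k)
      have h4 : ∀ z, (φ z : ℂ) * cc (MM m ea ν) (0 + k) (0 - k) z =
          sg k * ((φ z * m z : ℝ) : ℂ) := by
        intro z
        have h5 : cc (MM m ea ν) 0 0 z = (m z : ℂ) := by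
          unfold cc MZ
          simp [MM_0]
        rw [cc_sk, h5]; push_cast; ring
      simp only [h4] at h3
      rw [integral_const_mul, integral_complex_ofReal, ← hX, ← mul_assoc, mul_comm (av L k),
        av_sg'] at h3
      exact h3
    have h3 := tendsto_finsetSum sL fun k _ => h2 k
    rw [← Finset.sum_mul] at h3
    have h4 := h3.norm
    rw [norm_mul, ← hS, norm_real, Real.norm_eq_abs, mul_comm] at h4
    simp only [h1]
    exact h4
  -- smallness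
  have nF : ∀ n z, ‖F n z‖ ≤ ∑ k ∈ Finset.Icc 1 L, 2 * ‖wn a h (cx u) k n z‖ ^ 2 := by
    intro n z
    rw [hF]; unfold FA
    rw [hsL, Finset.sum_map]
    refine (norm_sum_le _ _).trans (Finset.sum_le_sum fun k _ => ?_)
    simp only [Nat.castEmbedding_apply]
    have e1 : ww a h (fun n z => (u n z : ℂ)) (0 + (k : ℤ)) n z = wn a h (cx u) k n z := by
      rw [zero_add]; rfl
    have e2 : ww a h (fun n z => (u n z : ℂ)) (0 - (k : ℤ)) n z =
        (-1) ^ k * (starRingEnd ℂ) (wn a h (cx u) k n z) := by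
      rw [zero_sub]; exact ww_neg hu k n z
    rw [e1, e2, norm_mul, norm_mul, norm_mul, norm_pow, norm_neg, norm_one, one_pow, one_mul,
      RCLike.norm_conj]
    have h1 := av_bd L (k : ℤ)
    have h2 : ‖(L : ℂ)⁻¹ * 1‖ ≤ 1 := by
      rw [mul_one, norm_inv, Complex.norm_natCast]
      exact inv_le_one_of_one_le₀ (by exact_mod_cast (by omega : 1 ≤ L))
    have h3 : ‖av L (k : ℤ)‖ ≤ 2 := by linarith
    rw [← sq]
    exact mul_le_mul_of_nonneg_right h3 (by positivity)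
  have cw : ∀ k n, ContinuousOn (wn a h (cx u) k n) (interior K) := fun k n =>
    ((mc.wn hB HB.hlim HB.sa k).sm n).continuousOn
  have small : ∀ᶠ s in 𝓝[>] (0 : ℝ), ∀ᶠ n in atTop, ∫ z, φ z * (ct s (u n z) * ‖F n z‖) ≤ η := by
    have h1 : ∀ᶠ s in 𝓝[>] (0 : ℝ), ∀ k ∈ Finset.Icc 1 L, ∀ᶠ n in atTop,
        ∫ z, φ z * (ct s (u n z) * ‖wn a h (cx u) k n z‖ ^ 2) ≤ η / (2 * L) :=
      (Filter.eventually_all_finset _).2 fun k _ => sm k _ (by positivity)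
    filter_upwards [h1] with s h1
    filter_upwards [(Filter.eventually_all_finset _).2 h1] with n h2
    have jj : ∀ k, Integrable (fun z => 2 * (φ z * (ct s (u n z) * ‖wn a h (cx u) k n z‖ ^ 2))) :=
      fun k => (cti hB hφ (cu n) s ((cw k n).norm.pow 2)).const_mul 2
    have h3 : ∫ z, φ z * (ct s (u n z) * ‖F n z‖) ≤ ∑ k ∈ Finset.Icc 1 L,
        2 * ∫ z, φ z * (ct s (u n z) * ‖wn a h (cx u) k n z‖ ^ 2) := by
      simp only [← integral_const_mul]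
      rw [← integral_finsetSum _ fun k _ => jj k]
      refine integral_mono (cti hB hφ (cu n) s (cF n).norm) (integrable_finsetSum _ fun k _ => jj k)
        fun z => ?_
      show φ z * (ct s (u n z) * ‖F n z‖) ≤ ∑ k ∈ Finset.Icc 1 L,
        2 * (φ z * (ct s (u n z) * ‖wn a h (cx u) k n z‖ ^ 2))
      have h4 : ∑ k ∈ Finset.Icc 1 L, 2 * (φ z * (ct s (u n z) * ‖wn a h (cx u) k n z‖ ^ 2)) =
          φ z * (ct s (u n z) * ∑ k ∈ Finset.Icc 1 L, 2 * ‖wn a h (cx u) k n z‖ ^ 2) := by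
        rw [Finset.mul_sum, Finset.mul_sum]
        refine Finset.sum_congr rfl fun k _ => ?_
        ring
      rw [h4]
      exact mul_le_mul_of_nonneg_left (mul_le_mul_of_nonneg_left (nF n z) (ct_nn _ _)) (hφ0 z)
    refine h3.trans ?_
    have h5 : ∑ k ∈ Finset.Icc 1 L, 2 * ∫ z, φ z * (ct s (u n z) * ‖wn a h (cx u) k n z‖ ^ 2) ≤
        ∑ k ∈ Finset.Icc 1 L, 2 * (η / (2 * L)) :=
      Finset.sum_le_sum fun k hk => mul_le_mul_of_nonneg_left (h2 k hk) (by norm_num)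
    refine h5.trans (le_of_eq ?_)
    rw [Finset.sum_const, Nat.card_Icc, Nat.add_sub_cancel, nsmul_eq_mul]
    have : (L : ℝ) ≠ 0 := by exact_mod_cast (by omega : L ≠ 0)
    field_simp
  have lim1' := lim1.eventually (lt_mem_nhds (show |X| * S - η < |X| * S by linarith))
  filter_upwards [small, self_mem_nhdsWithin] with s hs hs0
  have hs0 : 0 < s := hs0
  filter_upwards [hs, Q, lim1', hT] with n hs hQ hX1 hT
  have T0 : 0 ≤ ∫ z in K, u n z ^ 4 := integral_nonneg fun z => by positivity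
  have TT : 0 ≤ T := T0.trans hT
  rw [← hX, ← hAm]
  rw [hA2, sumsg, ← hS, ← hAm, ← hF] at hQ
  obtain ⟨J, hJ⟩ : ∃ J : ℝ, J = ∫ z, φ z * ((1 - ct s (u n z)) * ‖F n z‖) := ⟨_, rfl⟩
  obtain ⟨Q2, hQ2⟩ : ∃ Q2 : ℝ, Q2 = ∫ z, φ z * ‖F n z‖ ^ 2 := ⟨_, rfl⟩
  have cct : ContinuousOn (fun z => 1 - ct s (u n z)) (interior K) :=
    continuousOn_const.sub ((ct_cont s).comp_continuousOn (cu n))
  have k1 : Integrable (fun z => φ z * (ct s (u n z) * ‖F n z‖)) := cti hB hφ (cu n) s (cF n).norm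
  have k2 : Integrable (fun z => φ z * ((1 - ct s (u n z)) * ‖F n z‖)) :=
    Pool.Agent.W311.RW.int_mul hB hφ (cct.mul (cF n).norm)
  have k3 : Integrable (fun z => φ z * (1 - ct s (u n z)) ^ 2) :=
    Pool.Agent.W311.RW.int_mul hB hφ (cct.pow 2)
  have k4 : Integrable (fun z => φ z * ‖F n z‖ ^ 2) :=
    Pool.Agent.W311.RW.int_mul hB hφ ((cF n).norm.pow 2)
  have J0 : 0 ≤ J := by
    rw [hJ]
    exact integral_nonneg fun z => mul_nonneg (hφ0 z) (mul_nonneg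
      (by linarith [ct_le s (u n z)]) (norm_nonneg _))
  have up : ‖∫ z, (φ z : ℂ) * F n z‖ ≤ η + J := by
    refine (norm_integral_le_integral_norm _).trans ?_
    have e : ∀ z, ‖(φ z : ℂ) * F n z‖ = φ z * (ct s (u n z) * ‖F n z‖) +
        φ z * ((1 - ct s (u n z)) * ‖F n z‖) := by
      intro z
      rw [norm_mul, norm_real, Real.norm_eq_abs, abs_of_nonneg (hφ0 z)]; ring
    simp only [e]
    rw [integral_add k1 k2, ← hJ]
    linarith
  have Vm : MeasurableSet {z | z ∈ Ω ∧ s < |u n z|} := by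
    have co : ContinuousOn (fun z => |u n z|) Ω := (H.sm n).continuousOn.abs
    exact (co.isOpen_inter_preimage hΩ isOpen_Ioi).measurableSet
  obtain ⟨V, hV⟩ : ∃ V : ℝ, V = ∫ z in {z | z ∈ Ω ∧ s < |u n z|}, φ z := ⟨_, rfl⟩
  have Vn : 0 ≤ V := by rw [hV]; exact integral_nonneg hφ0
  have VV : V ≤ V0 := by
    rw [hV, hV0]; exact setIntegral_le_integral iφ (ae_of_all _ hφ0)
  have V2 : ∫ z, φ z * (1 - ct s (u n z)) ^ 2 ≤ V := by
    rw [hV, ← integral_indicator Vm]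
    refine integral_mono k3 (iφ.indicator Vm) fun z => ?_
    show φ z * (1 - ct s (u n z)) ^ 2 ≤ Set.indicator {z | z ∈ Ω ∧ s < |u n z|} φ z
    by_cases hz : z ∈ {z | z ∈ Ω ∧ s < |u n z|}
    · rw [Set.indicator_of_mem hz]
      have h1 := ct_nn s (u n z)
      have h2 := ct_le s (u n z)
      have h3 : (1 - ct s (u n z)) ^ 2 ≤ 1 := by nlinarith
      nlinarith [hφ0 z]
    · rw [Set.indicator_of_notMem hz]
      by_cases hzΩ : z ∈ Ω
      · have h1 : |u n z| ≤ s := by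
          by_contra hc
          exact hz ⟨hzΩ, not_le.1 hc⟩
        rw [ct_one hs0 h1]; simp
      · have : φ z = 0 := TF.zero hφ fun hzi => hzΩ (hBΩ hzi)
        rw [this]; simp
  have Q0 : 0 ≤ Q2 := by
    rw [hQ2]; exact integral_nonneg fun z => mul_nonneg (hφ0 z) (by positivity)
  have cs : J ^ 2 ≤ V * Q2 := by
    rw [hJ, hQ2]
    refine (wcs2 (F := fun z => 1 - ct s (u n z)) (G := fun z => ‖F n z‖) k3 k4 k2 hφ0).trans ?_
    exact mul_le_mul_of_nonneg_right V2 (by rw [← hQ2]; exact Q0)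
  have UU : (∫ z, φ z * u n z ^ 4) ≤ U0 := by
    rw [out_int (S := K) (fun z hz => by
      rw [TF.zero hφ fun hzi => hz (interior_subset hzi), zero_mul])]
    have h1 : ∫ z in K, φ z * u n z ^ 4 ≤ ∫ z in K, |Mφ| * u n z ^ 4 :=
      intK_mono hK (hφ.1.continuous.continuousOn.mul (ciK n)) (continuousOn_const.mul (ciK n))
        fun z _ => mul_le_mul_of_nonneg_right (hφM z) (by positivity)
    rw [integral_const_mul] at h1
    rw [hU0]
    exact h1.trans (mul_le_mul_of_nonneg_left (hT.trans (le_abs_self _)) (abs_nonneg _))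
  rw [← hQ2] at hQ
  have fin := sv_alg (X := X) (S := S) (J := J) (V := V) (V0 := V0) (Q := Q2)
    (U2 := (∫ z, φ z * u n z ^ 4) - 2 * Am) (U0 := U0)
    (r := (∑ k ∈ sL, ∑ l ∈ sL, ‖av L k‖ * ‖av L l‖ *
      (fK (MM m ea ν) φ (k - l) + fK (MM m ea ν) φ (0 - 0 + k + l))) +
      η * (1 + ∫ z in K, u n z ^ 4)) (η := η) (T := |T|)
    S1 S2 J0 η0 η1 (by linarith) cs Vn VV Q0 (by
      refine hQ.trans (le_of_eq ?_)
      ring) (by linarith) U00 (by
      have : η * (1 + ∫ z in K, u n z ^ 4) ≤ η * (1 + |T|) :=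
        mul_le_mul_of_nonneg_left (by linarith [le_abs_self T]) η0.le
      linarith [mid, this, (by ring : η * (2 + |T|) = η + η * (1 + |T|))]) (abs_nonneg _)
  rw [← hV]
  rw [← hCs] at fin
  linarith

/-- **Small values**, relative form. -/
theorem small_rel [IsMarkovKernel ν] {Ω : Set ℂ} (hΩ : IsOpen Ω)
    (hm : ∀ K : Set ℂ, IsCompact K → K ⊆ Ω → MemLp m 2 (volume.restrict K))
    (hp : ∀ᵐ z ∂(volume.restrict Ω), par ea (ν z) = 0) {a : ℂ → ℝ} {u : ℕ → ℂ → ℝ}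
    (H : RawG Ω a h u (MM m ea ν)) {K : Set ℂ} (hK : IsCompact K) (hKΩ : K ⊆ Ω)
    {φ : ℂ → ℝ} (hφ : TF (interior K) φ) (hφ0 : ∀ z, 0 ≤ φ z) {ε : ℝ} (hε : 0 < ε) :
    ∀ᶠ s in 𝓝[>] (0 : ℝ), ∀ᶠ n in atTop,
      (∫ z, φ z * m z) ^ 2 ≤ (∫ z in {z | z ∈ Ω ∧ s < |u n z|}, φ z) *
        ((∫ z, φ z * u n z ^ 4) - 2 * ∫ z, φ z * m z ^ 2) +
        ε * (1 + ∫ z in K, u n z ^ 4) := by
  classical
  have iφ : Integrable φ := hφ.1.continuous.integrable_of_hasCompactSupport hφ.2.1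
  obtain ⟨Am, hAm⟩ : ∃ Am : ℝ, Am = ∫ z, φ z * m z ^ 2 := ⟨_, rfl⟩
  have Am0 : 0 ≤ Am := by
    rw [hAm]; exact integral_nonneg fun z => mul_nonneg (hφ0 z) (sq_nonneg _)
  obtain ⟨X, hX⟩ : ∃ X : ℝ, X = ∫ z, φ z * m z := ⟨_, rfl⟩
  obtain ⟨V0, hV0⟩ : ∃ V0 : ℝ, V0 = ∫ z, φ z := ⟨_, rfl⟩
  obtain ⟨T, hT⟩ : ∃ T : ℝ, T = (X ^ 2 + 2 * (V0 * Am)) / ε := ⟨_, rfl⟩
  have triv : ∀ n, ¬ (∫ z in K, u n z ^ 4 ≤ T) → ∀ s : ℝ,
      (∫ z, φ z * m z) ^ 2 ≤ (∫ z in {z | z ∈ Ω ∧ s < |u n z|}, φ z) *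
        ((∫ z, φ z * u n z ^ 4) - 2 * ∫ z, φ z * m z ^ 2) +
        ε * (1 + ∫ z in K, u n z ^ 4) := by
    intro n hn s
    rw [← hX, ← hAm]
    have V1 : 0 ≤ ∫ z in {z | z ∈ Ω ∧ s < |u n z|}, φ z := integral_nonneg hφ0
    have V2 : (∫ z in {z | z ∈ Ω ∧ s < |u n z|}, φ z) ≤ V0 := by
      rw [hV0]; exact setIntegral_le_integral iφ (ae_of_all _ hφ0)
    have U1 : 0 ≤ ∫ z, φ z * u n z ^ 4 :=
      integral_nonneg fun z => mul_nonneg (hφ0 z) (by positivity)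
    have h1 := mul_nonneg V1 U1
    have h2 := mul_le_mul_of_nonneg_right V2 Am0
    have h3 : X ^ 2 + 2 * (V0 * Am) ≤ ε * ∫ z in K, u n z ^ 4 := by
      have := mul_le_mul_of_nonneg_left (not_le.1 hn).le hε.le
      have e : ε * T = X ^ 2 + 2 * (V0 * Am) := by rw [hT]; field_simp
      rw [← e]; exact this
    nlinarith
  by_cases hG : ∃ᶠ n in atTop, ∫ z in K, u n z ^ 4 ≤ T
  · have hk : ∀ n, ∃ k, n ≤ k ∧ ∫ z in K, u k z ^ 4 ≤ T := fun n => by
      obtain ⟨k, hk, hk2⟩ := (frequently_atTop.1 hG) n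
      exact ⟨k, hk, hk2⟩
    choose f hf1 hf2 using hk
    obtain ⟨σ, hσd⟩ : ∃ σ : ℕ → ℕ, ∀ n, σ n = if (∫ z in K, u n z ^ 4 ≤ T) then n else f n :=
      ⟨_, fun _ => rfl⟩
    have hσ1 : ∀ n, n ≤ σ n := by
      intro n; rw [hσd]; split_ifs
      · exact le_rfl
      · exact hf1 n
    have hσ2 : ∀ n, ∫ z in K, u (σ n) z ^ 4 ≤ T := by
      intro n; rw [hσd]; split_ifs with hc
      · exact hc
      · exact hf2 n
    have hσ : Tendsto σ atTop atTop := tendsto_atTop_mono hσ1 tendsto_id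
    have key := small_core hΩ hm hp (H.cmp subset_rfl hσ) hK hKΩ hφ hφ0
      (Eventually.of_forall hσ2) hε
    filter_upwards [key] with s hs
    filter_upwards [hs] with n hn
    by_cases hc : ∫ z in K, u n z ^ 4 ≤ T
    · have e : σ n = n := by rw [hσd, if_pos hc]
      rw [e] at hn
      have T0 : 0 ≤ ε * ∫ z in K, u n z ^ 4 :=
        mul_nonneg hε.le (integral_nonneg fun z => by positivity)
      linarith
    · exact triv n hc s
  · rw [not_frequently] at hG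
    exact Eventually.of_forall fun s => hG.mono fun n hn => triv n hn s

end

end Pool.Agent.TH421.AC
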