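import Pool.Agent.TH294.RG.Jc7
import Pool.Agent.TH421.AC.Main

/-!
Project AZ (helper421): all ladder functions are small where the eigenfunction is small.
-/

set_option autoImplicit false
open MeasureTheory Filter Topology Complex
open scoped ContDiff ENNReal

namespace Pool.Agent.TH421.AC

open Pool.Agent.W745.RW Pool.Agent.TH294.RS Pool.Agent.TH294.RG Pool.Agent.TH421.DF

noncomputable section

variable {B : Set ℂ} {h : ℕ → ℝ}

/-- cutoff -/
def ct (s x : ℝ) : ℝ := min 1 (max 0 (2 - |x| / s))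

lemma ct_nn (s x : ℝ) : 0 ≤ ct s x := le_min zero_le_one (le_max_left _ _)
lemma ct_le (s x : ℝ) : ct s x ≤ 1 := min_le_left _ _
lemma ct_cont (s : ℝ) : Continuous (ct s) := by unfold ct; fun_prop
lemma ct_one {s x : ℝ} (hs : 0 < s) (hx : |x| ≤ s) : ct s x = 1 := by
  unfold ct
  have : |x| / s ≤ 1 := (div_le_one hs).2 hx
  rw [min_eq_left]
  exact le_trans (by linarith) (le_max_right _ _)
lemma ct_sq {s x : ℝ} (hs : 0 < s) : ct s x * x ^ 2 ≤ 4 * s ^ 2 := by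
  by_cases hx : |x| ≤ 2 * s
  · have h1 : x ^ 2 ≤ (2 * s) ^ 2 := by rw [← sq_abs x]; exact pow_le_pow_left₀ (abs_nonneg _) hx 2
    nlinarith [ct_nn s x, ct_le s x, sq_nonneg x]
  · have : 2 - |x| / s ≤ 0 := by
      have : 2 ≤ |x| / s := by rw [le_div_iff₀ hs]; linarith
      linarith
    have h0 : ct s x = 0 := by unfold ct; rw [max_eq_left this]; simp
    rw [h0, zero_mul]; positivity

/-- smallness where `u` is small -/
def Sm (φ : ℂ → ℝ) (u : ℕ → ℂ → ℝ) (f : ℕ → ℂ → ℂ) : Prop :=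
  ∀ ε : ℝ, 0 < ε → ∀ᶠ s in 𝓝[>] (0 : ℝ), ∀ᶠ n in atTop,
    ∫ z, φ z * (ct s (u n z) * ‖f n z‖ ^ 2) ≤ ε

lemma cti (hB : IsOpen B) {φ : ℂ → ℝ} (hφ : TF B φ) {u : ℂ → ℝ} (hu : ContinuousOn u B) (s : ℝ)
    {F : ℂ → ℝ} (hF : ContinuousOn F B) : Integrable (fun z => φ z * (ct s (u z) * F z)) :=
  Pool.Agent.W311.RW.int_mul hB hφ (((ct_cont s).comp_continuousOn hu).mul hF)

lemma Sm.dom (hB : IsOpen B) {φ : ℂ → ℝ} (hφ : TF B φ) (hφ0 : ∀ z, 0 ≤ φ z) {u : ℕ → ℂ → ℝ}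
    (hu : ∀ n, ContinuousOn (u n) B) {f g1 g2 : ℕ → ℂ → ℂ} (cf : ∀ n, ContinuousOn (f n) B)
    (c1 : ∀ n, ContinuousOn (g1 n) B) (c2 : ∀ n, ContinuousOn (g2 n) B) {C : ℝ} (hC : 0 ≤ C)
    (H1 : Sm φ u g1) (H2 : Sm φ u g2)
    (hd : ∀ n, ∀ z ∈ tsupport φ, ‖f n z‖ ^ 2 ≤ C * (‖g1 n z‖ ^ 2 + ‖g2 n z‖ ^ 2)) : Sm φ u f := by
  intro ε hε
  have he : 0 < ε / (2 * (C + 1)) := by positivity
  filter_upwards [H1 _ he, H2 _ he] with s h1 h2
  filter_upwards [h1, h2] with n h1 h2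
  have i0 : Integrable (fun z => φ z * (ct s (u n z) * ‖f n z‖ ^ 2)) :=
    cti hB hφ (hu n) s ((cf n).norm.pow 2)
  have i1 : Integrable (fun z => φ z * (ct s (u n z) * ‖g1 n z‖ ^ 2)) :=
    cti hB hφ (hu n) s ((c1 n).norm.pow 2)
  have i2 : Integrable (fun z => φ z * (ct s (u n z) * ‖g2 n z‖ ^ 2)) :=
    cti hB hφ (hu n) s ((c2 n).norm.pow 2)
  have key : ∫ z, φ z * (ct s (u n z) * ‖f n z‖ ^ 2) ≤
      C * ((∫ z, φ z * (ct s (u n z) * ‖g1 n z‖ ^ 2)) +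
        ∫ z, φ z * (ct s (u n z) * ‖g2 n z‖ ^ 2)) := by
    rw [← integral_add i1 i2, ← integral_const_mul]
    refine integral_mono i0 ((i1.add i2).const_mul C) fun z => ?_
    show φ z * (ct s (u n z) * ‖f n z‖ ^ 2) ≤
      C * (φ z * (ct s (u n z) * ‖g1 n z‖ ^ 2) + φ z * (ct s (u n z) * ‖g2 n z‖ ^ 2))
    by_cases hz : z ∈ tsupport φ
    · have e : C * (φ z * (ct s (u n z) * ‖g1 n z‖ ^ 2) + φ z * (ct s (u n z) * ‖g2 n z‖ ^ 2)) =
          φ z * (ct s (u n z) * (C * (‖g1 n z‖ ^ 2 + ‖g2 n z‖ ^ 2))) := by ring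
      rw [e]
      exact mul_le_mul_of_nonneg_left (mul_le_mul_of_nonneg_left (hd n z hz) (ct_nn _ _)) (hφ0 z)
    · rw [image_eq_zero_of_notMem_tsupport hz]; simp
  have h3 : C * (ε / (2 * (C + 1)) + ε / (2 * (C + 1))) ≤ ε := by
    have : C * (ε / (2 * (C + 1)) + ε / (2 * (C + 1))) = ε * (C / (C + 1)) := by field_simp; ring
    rw [this]
    have h4 : C / (C + 1) ≤ 1 := (div_le_one (by linarith)).2 (by linarith)
    nlinarith
  exact key.trans ((mul_le_mul_of_nonneg_left (add_le_add h1 h2) hC).trans h3)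

lemma Sm.grad (hB : IsOpen B) (hp : ∀ n, 0 < h n) (hh : Tendsto h atTop (𝓝 0)) {φ : ℂ → ℝ}
    (hφ : TF B φ) (hφ0 : ∀ z, 0 ≤ φ z) {u : ℕ → ℂ → ℝ} (hu : ∀ n, ContinuousOn (u n) B)
    {p : ℕ → ℂ → ℝ} (sp : ∀ n, ContDiffOn ℝ ∞ (p n) B) (h2 : MK2 B h 2 (cx p)) {v : ℂ}
    (hv : v = 1 ∨ v = I) (h4 : LB B 4 (cx (rd h v p))) (H : Sm φ u (cx p)) :
    Sm φ u (cx (rd h v p)) := by
  obtain ⟨θ, Cθ, sθ, θ0, θ1, θe, Cθ0, hCθ⟩ := exists_theta
  obtain ⟨C, hC, en⟩ := energy hB hp hh sp h2 hφ hv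
  obtain ⟨M, hM⟩ := hφ.2.1.exists_bound_of_continuousOn hφ.1.continuous.continuousOn
  obtain ⟨C4, hC4⟩ := h4.bd _ hφ.2.1 hφ.2.2
  intro ε hε
  obtain ⟨D, hD⟩ : ∃ D : ℝ, D = |M| * |C4| := ⟨_, rfl⟩
  have D0 : 0 ≤ D := by rw [hD]; positivity
  obtain ⟨e1, he1⟩ : ∃ e1 : ℝ, e1 = ε / (3 * (Cθ * C + 1)) := ⟨_, rfl⟩
  have e10 : 0 < e1 := by rw [he1]; positivity
  obtain ⟨δ, hδ⟩ : ∃ δ : ℝ, δ = 2 * e1 * ε / (3 * (D + 1)) := ⟨_, rfl⟩
  have δ0 : 0 < δ := by rw [hδ]; positivity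
  have b1 : e1 * Cθ * C ≤ ε / 3 := by
    have e : e1 * Cθ * C = ε / 3 * (Cθ * C / (Cθ * C + 1)) := by rw [he1]; field_simp
    have h5 : Cθ * C / (Cθ * C + 1) ≤ 1 := (div_le_one (by positivity)).2 (by linarith)
    rw [e]; nlinarith
  have b2 : δ / (2 * e1) * D ≤ ε / 3 := by
    have e : δ / (2 * e1) * D = ε / 3 * (D / (D + 1)) := by rw [hδ]; field_simp
    have h5 : D / (D + 1) ≤ 1 := (div_le_one (by positivity)).2 (by linarith)
    rw [e]; nlinarith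
  have e20 : 0 < 2 * δ * e1 * ε / 3 := by positivity
  filter_upwards [H _ e20] with s hs
  filter_upwards [hs, en, hC4] with n hs en hC4
  have E := en (fun t => θ (t / e1)) (e1 * Cθ) (sθ.comp (contDiff_id.div_const _))
    (fun x => Pr_scale e10 hCθ x)
  have cp : ContinuousOn (p n) B := (sp n).continuousOn
  have cq : ContinuousOn (rd h v p n) B := (rd_sm hB sp v n).continuousOn
  have cn : ContinuousOn (fun z => ‖cx p n z‖ ^ 2) B := by
    have : (fun z => ‖cx p n z‖ ^ 2) = fun z => p n z ^ 2 := by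
      funext z; simp only [cx, norm_real, Real.norm_eq_abs, sq_abs]
    rw [this]; exact cp.pow 2
  have cθ : ContinuousOn (fun z => θ (p n z / e1)) B :=
    sθ.continuous.comp_continuousOn (cp.div_const _)
  have j0 : Integrable (fun z => φ z * (ct s (u n z) * rd h v p n z ^ 2)) :=
    cti hB hφ (hu n) s (cq.pow 2)
  have j1 : Integrable (fun z => φ z * (θ (p n z / e1) * rd h v p n z ^ 2)) :=
    Pool.Agent.W311.RW.int_mul hB hφ (cθ.mul (cq.pow 2))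
  have j2 : Integrable (fun z => φ z * (ct s (u n z) * p n z ^ 2)) :=
    cti hB hφ (hu n) s (cp.pow 2)
  have j3 : Integrable (fun z => φ z * rd h v p n z ^ 4) :=
    Pool.Agent.W311.RW.int_mul hB hφ (cq.pow 4)
  have f4 : ∫ z, φ z * rd h v p n z ^ 4 ≤ D := by
    rw [out_int (S := tsupport φ) (fun z hz => by
      rw [image_eq_zero_of_notMem_tsupport hz, zero_mul])]
    have hS := hφ.2.1
    have hSB := hφ.2.2
    have := intK_c (K := tsupport φ) hS (abs_nonneg M)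
      (F := fun z => φ z * rd h v p n z ^ 4) (G := fun z => ‖cx (rd h v p) n z‖ ^ 4)
      ((hφ.1.continuous.continuousOn).mul ((cq.mono hSB).pow 4))
      ((h4.copow n 4).mono hSB) (fun z hz => by
        have e : ‖cx (rd h v p) n z‖ ^ 4 = rd h v p n z ^ 4 := by
          simp only [cx, norm_real, Real.norm_eq_abs]
          exact Even.pow_abs (by decide) _
        rw [e]
        have h5 : φ z ≤ |M| := (le_abs_self _).trans ((hM z hz).trans (le_abs_self _))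
        exact mul_le_mul_of_nonneg_right h5 (by positivity)) (hC4.trans (le_abs_self _))
    rw [hD]; exact this
  have key : ∫ z, φ z * (ct s (u n z) * rd h v p n z ^ 2) ≤
      (∫ z, φ z * (θ (p n z / e1) * rd h v p n z ^ 2)) +
      (1 / (2 * δ * e1) * (∫ z, φ z * (ct s (u n z) * p n z ^ 2)) +
      δ / (2 * e1) * ∫ z, φ z * rd h v p n z ^ 4) := by
    have j23 : Integrable (fun z => 1 / (2 * δ * e1) * (φ z * (ct s (u n z) * p n z ^ 2)) +
        δ / (2 * e1) * (φ z * rd h v p n z ^ 4)) := (j2.const_mul _).add (j3.const_mul _)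
    rw [← integral_const_mul, ← integral_const_mul,
      ← integral_add (j2.const_mul _) (j3.const_mul _), ← integral_add j1 j23]
    refine integral_mono j0 (j1.add j23) fun z => ?_
    show φ z * (ct s (u n z) * rd h v p n z ^ 2) ≤ φ z * (θ (p n z / e1) * rd h v p n z ^ 2) +
      (1 / (2 * δ * e1) * (φ z * (ct s (u n z) * p n z ^ 2)) +
      δ / (2 * e1) * (φ z * rd h v p n z ^ 4))
    have e : φ z * (θ (p n z / e1) * rd h v p n z ^ 2) +
      (1 / (2 * δ * e1) * (φ z * (ct s (u n z) * p n z ^ 2)) +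
      δ / (2 * e1) * (φ z * rd h v p n z ^ 4)) =
      φ z * (θ (p n z / e1) * rd h v p n z ^ 2 + (1 / (2 * δ * e1) * (ct s (u n z) * p n z ^ 2) +
      δ / (2 * e1) * rd h v p n z ^ 4)) := by ring
    rw [e]
    refine mul_le_mul_of_nonneg_left ?_ (hφ0 z)
    obtain ⟨c, hc⟩ : ∃ c : ℝ, c = ct s (u n z) := ⟨_, rfl⟩
    obtain ⟨q, hq⟩ : ∃ q : ℝ, q = rd h v p n z := ⟨_, rfl⟩
    obtain ⟨x, hx⟩ : ∃ x : ℝ, x = p n z := ⟨_, rfl⟩
    have c0 : 0 ≤ c := by rw [hc]; exact ct_nn _ _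
    have c1 : c ≤ 1 := by rw [hc]; exact ct_le _ _
    rw [← hc, ← hq, ← hx]
    have t0 := θ0 (x / e1)
    have t1 := θ1 (x / e1)
    have t2 : 1 - θ (x / e1) ≤ |x| / e1 := by
      by_cases hxe : |x / e1| ≤ 1
      · rw [θe _ hxe, sub_self]; positivity
      · rw [abs_div, abs_of_pos e10] at hxe
        linarith
    have t3 : |x| * q ^ 2 ≤ 1 / (2 * δ) * x ^ 2 + δ / 2 * q ^ 4 := by
      have h6 : 0 ≤ 1 / (2 * δ) * (|x| - δ * q ^ 2) ^ 2 := by positivity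
      have h7 : 1 / (2 * δ) * (|x| - δ * q ^ 2) ^ 2 =
          1 / (2 * δ) * |x| ^ 2 + δ / 2 * q ^ 4 - |x| * q ^ 2 := by
        field_simp; ring
      rw [h7, sq_abs] at h6; linarith
    have t4 : c * q ^ 2 ≤ θ (x / e1) * q ^ 2 + c * ((1 - θ (x / e1)) * q ^ 2) := by
      have : 0 ≤ (1 - c) * (θ (x / e1) * q ^ 2) :=
        mul_nonneg (by linarith) (mul_nonneg t0 (sq_nonneg _))
      nlinarith
    have t5 : c * ((1 - θ (x / e1)) * q ^ 2) ≤ c * (1 / e1 * (|x| * q ^ 2)) := by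
      refine mul_le_mul_of_nonneg_left ?_ c0
      have : 1 / e1 * (|x| * q ^ 2) = |x| / e1 * q ^ 2 := by ring
      rw [this]
      exact mul_le_mul_of_nonneg_right t2 (sq_nonneg _)
    have t6 : c * (1 / e1 * (|x| * q ^ 2)) ≤
        c * (1 / e1 * (1 / (2 * δ) * x ^ 2 + δ / 2 * q ^ 4)) :=
      mul_le_mul_of_nonneg_left (mul_le_mul_of_nonneg_left t3 (by positivity)) c0
    have t7 : c * (1 / e1 * (1 / (2 * δ) * x ^ 2 + δ / 2 * q ^ 4)) =
        1 / (2 * δ * e1) * (c * x ^ 2) + c * (δ / (2 * e1) * q ^ 4) := by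
      field_simp
    have t8 : c * (δ / (2 * e1) * q ^ 4) ≤ 1 * (δ / (2 * e1) * q ^ 4) :=
      mul_le_mul_of_nonneg_right c1 (by positivity)
    linarith
  have n1 : ∀ z, ‖cx (rd h v p) n z‖ ^ 2 = rd h v p n z ^ 2 := fun z => by
    simp only [cx, norm_real, Real.norm_eq_abs, sq_abs]
  have n2 : ∀ z, ‖cx p n z‖ ^ 2 = p n z ^ 2 := fun z => by
    simp only [cx, norm_real, Real.norm_eq_abs, sq_abs]
  simp only [n1]
  simp only [n2] at hs
  have g1 : 1 / (2 * δ * e1) * (∫ z, φ z * (ct s (u n z) * p n z ^ 2)) ≤ ε / 3 := by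
    have := mul_le_mul_of_nonneg_left hs (show 0 ≤ 1 / (2 * δ * e1) by positivity)
    refine this.trans (le_of_eq ?_)
    field_simp
  have g2 : δ / (2 * e1) * (∫ z, φ z * rd h v p n z ^ 4) ≤ ε / 3 :=
    (mul_le_mul_of_nonneg_left f4 (by positivity)).trans b2
  linarith

lemma mk_two {k : ℕ} : ∀ {f : ℕ → ℂ → ℂ}, MK B h k f → MK2 B h k f := by
  induction k with
  | zero => intro f H; exact LB.low (p := 2) H
  | succ k ih => intro f H; exact ⟨LB.low (p := 2) H.1, ih H.2.1, ih H.2.2⟩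

lemma fre {f : ℂ → ℂ} {z : ℂ} (hf : DifferentiableAt ℝ f z) (v : ℂ) :
    fderiv ℝ (fun w => (f w).re) z v = (fderiv ℝ f z v).re := by
  have := (Complex.reCLM.hasFDerivAt.comp z hf.hasFDerivAt).fderiv
  have e : fderiv ℝ (fun w => (f w).re) z = Complex.reCLM.comp (fderiv ℝ f z) := this
  rw [e]; rfl
lemma fim {f : ℂ → ℂ} {z : ℂ} (hf : DifferentiableAt ℝ f z) (v : ℂ) :
    fderiv ℝ (fun w => (f w).im) z v = (fderiv ℝ f z v).im := by
  have := (Complex.imCLM.hasFDerivAt.comp z hf.hasFDerivAt).fderiv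
  have e : fderiv ℝ (fun w => (f w).im) z = Complex.imCLM.comp (fderiv ℝ f z) := this
  rw [e]; rfl

lemma MC.cong (hB : IsOpen B) {f g : ℕ → ℂ → ℂ} (H : MC B h f)
    (e : ∀ n, ∀ z ∈ B, g n z = f n z) : MC B h g := fun k => (H k).congr hB e

lemma mc_re (hB : IsOpen B) (hh : Tendsto h atTop (𝓝 0)) {f : ℕ → ℂ → ℂ} (H : MC B h f) :
    MC B h (cx fun n z => (f n z).re) :=
  MC.cong hB ((H.add hB (H.conj hB)).cmul hB hh (1 / 2)) fun n z _ => by
    show (((f n z).re : ℝ) : ℂ) = 1 / 2 * (f n z + (starRingEnd ℂ) (f n z))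
    rw [Complex.add_conj]; push_cast; ring
lemma mc_im (hB : IsOpen B) (hh : Tendsto h atTop (𝓝 0)) {f : ℕ → ℂ → ℂ} (H : MC B h f) :
    MC B h (cx fun n z => (f n z).im) :=
  MC.cong hB ((H.sub hB hh (H.conj hB)).cmul hB hh (-I / 2)) fun n z _ => by
    show (((f n z).im : ℝ) : ℂ) = -I / 2 * (f n z - (starRingEnd ℂ) (f n z))
    rw [Complex.sub_conj]; push_cast
    linear_combination ((f n z).im : ℂ) * I_sq

lemma nsq (w : ℂ) : ‖w‖ ^ 2 = w.re ^ 2 + w.im ^ 2 := by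
  rw [← Complex.normSq_eq_norm_sq, Complex.normSq_apply]; ring

lemma Sm.hd (hB : IsOpen B) (hp : ∀ n, 0 < h n) (hh : Tendsto h atTop (𝓝 0)) {φ : ℂ → ℝ}
    (hφ : TF B φ) (hφ0 : ∀ z, 0 ≤ φ z) {u : ℕ → ℂ → ℝ} (hu : ∀ n, ContinuousOn (u n) B)
    {f : ℕ → ℂ → ℂ} (hf : MC B h f) (H : Sm φ u f) {v : ℂ} (hv : v = 1 ∨ v = I) :
    Sm φ u (hd h v f) := by
  have mr := mc_re hB hh hf
  have mi := mc_im hB hh hf
  have sr : ∀ n, ContDiffOn ℝ ∞ (fun z => (f n z).re) B := fun n =>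
    Complex.reCLM.contDiff.comp_contDiffOn (hf.sm n)
  have si : ∀ n, ContDiffOn ℝ ∞ (fun z => (f n z).im) B := fun n =>
    Complex.imCLM.contDiff.comp_contDiffOn (hf.sm n)
  have cf : ∀ n, ContinuousOn (f n) B := fun n => (hf.sm n).continuousOn
  have cr : ∀ n, ContinuousOn (cx (fun n z => (f n z).re) n) B := fun n => (mr.sm n).continuousOn
  have ci : ∀ n, ContinuousOn (cx (fun n z => (f n z).im) n) B := fun n => (mi.sm n).continuousOn
  have Hr : Sm φ u (cx fun n z => (f n z).re) :=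
    Sm.dom hB hφ hφ0 hu cr cf cf zero_le_one H H fun n z _ => by
      simp only [cx, norm_real, Real.norm_eq_abs, sq_abs]
      rw [nsq]; nlinarith [sq_nonneg (f n z).re, sq_nonneg (f n z).im]
  have Hi : Sm φ u (cx fun n z => (f n z).im) :=
    Sm.dom hB hφ hφ0 hu ci cf cf zero_le_one H H fun n z _ => by
      simp only [cx, norm_real, Real.norm_eq_abs, sq_abs]
      rw [nsq]; nlinarith [sq_nonneg (f n z).re, sq_nonneg (f n z).im]
  have er : ∀ n, ∀ z ∈ B, rd h v (fun n z => (f n z).re) n z = (Pool.Agent.TH294.RS.hd h v f n z).re := by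
    intro n z hz
    show h n * fderiv ℝ (fun w => (f n w).re) z v = ((h n : ℂ) * fderiv ℝ (f n) z v).re
    rw [fre (fda hB (hf.sm n) hz), Complex.re_ofReal_mul]
  have ei : ∀ n, ∀ z ∈ B, rd h v (fun n z => (f n z).im) n z = (Pool.Agent.TH294.RS.hd h v f n z).im := by
    intro n z hz
    show h n * fderiv ℝ (fun w => (f n w).im) z v = ((h n : ℂ) * fderiv ℝ (f n) z v).im
    rw [fim (fda hB (hf.sm n) hz), Complex.im_ofReal_mul]
  have l4 : ∀ {g : ℕ → ℂ → ℝ}, (∀ n, ContDiffOn ℝ ∞ (g n) B) → MC B h (cx g) →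
      LB B 4 (cx (rd h v g)) := by
    intro g sg mg
    have h1 : LB B 4 (Pool.Agent.TH294.RS.hd h v (cx g)) := by
      rcases hv with rfl | rfl
      · exact (mg 1).2.1
      · exact (mg 1).2.2
    exact h1.congr fun n z hz => (hd_cx hB sg v n hz).symm
  have Gr := Sm.grad hB hp hh hφ hφ0 hu sr (mk_two (mr 2)) hv (l4 sr mr) Hr
  have Gi := Sm.grad hB hp hh hφ hφ0 hu si (mk_two (mi 2)) hv (l4 si mi) Hi
  have chd : ∀ n, ContinuousOn (Pool.Agent.TH294.RS.hd h v f n) B := fun n =>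
    (contDiffOn_const.mul (cfd hB (hf.sm n) v)).continuousOn
  refine Sm.dom hB hφ hφ0 hu chd (fun n => ((l4 sr mr).sm n).continuousOn)
    (fun n => ((l4 si mi).sm n).continuousOn) zero_le_one Gr Gi fun n z hz => ?_
  have hzB := hφ.2.2 hz
  simp only [cx, norm_real, Real.norm_eq_abs, sq_abs]
  rw [er n z hzB, ei n z hzB, nsq]; linarith

/-- the ladder -/
theorem Sm.wn (hB : IsOpen B) (hp : ∀ n, 0 < h n) (hh : Tendsto h atTop (𝓝 0)) {a : ℂ → ℝ}
    (ha : ContDiffOn ℝ ∞ a B) {φ : ℂ → ℝ}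
    (hφ : TF B φ) (hφ0 : ∀ z, 0 ≤ φ z) {u : ℕ → ℂ → ℝ} (hu : ∀ n, ContinuousOn (u n) B)
    (hf : MC B h (cx u)) (k : ℕ) : Sm φ u (Pool.Agent.TH294.RS.wn a h (cx u) k) := by
  induction k with
  | zero =>
    intro ε hε
    have i0 : Integrable φ := hφ.1.continuous.integrable_of_hasCompactSupport hφ.2.1
    have lim : Tendsto (fun s : ℝ => 4 * s ^ 2 * ∫ z, φ z) (𝓝[>] 0) (𝓝 0) := by
      have : Tendsto (fun s : ℝ => 4 * s ^ 2 * ∫ z, φ z) (𝓝 0) (𝓝 (4 * 0 ^ 2 * ∫ z, φ z)) :=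
        (Continuous.tendsto (by fun_prop) 0)
      rw [show (4 * (0 : ℝ) ^ 2 * ∫ z, φ z) = 0 by ring] at this
      exact this.mono_left nhdsWithin_le_nhds
    filter_upwards [lim.eventually (gt_mem_nhds hε), self_mem_nhdsWithin] with s hs hs0
    refine Eventually.of_forall fun n => ?_
    refine le_trans ?_ hs.le
    have j := cti hB hφ (hu n) s ((hu n).pow 2)
    have e : ∀ z, ‖Pool.Agent.TH294.RS.wn a h (cx u) 0 n z‖ ^ 2 = u n z ^ 2 := fun z => by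
      show ‖((u n z : ℝ) : ℂ)‖ ^ 2 = _
      rw [norm_real, Real.norm_eq_abs, sq_abs]
    simp only [e]
    rw [← integral_const_mul]
    refine integral_mono j (i0.const_mul _) fun z => ?_
    show φ z * (ct s (u n z) * u n z ^ 2) ≤ 4 * s ^ 2 * φ z
    rw [mul_comm (4 * s ^ 2)]
    exact mul_le_mul_of_nonneg_left (ct_sq hs0) (hφ0 z)
  | succ k ih =>
    have mk := hf.wn hB hh ha k
    have h1 := Sm.hd hB hp hh hφ hφ0 hu mk ih (v := 1) (Or.inl rfl)
    have h2 := Sm.hd hB hp hh hφ hφ0 hu mk ih (v := I) (Or.inr rfl)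
    obtain ⟨M, hM⟩ := hφ.2.1.exists_bound_of_continuousOn (ha.continuousOn.mono hφ.2.2)
    refine Sm.dom hB hφ hφ0 hu (fun n => ((hf.wn hB hh ha (k + 1)).sm n).continuousOn)
      (fun n => (((mk 1).2.1).sm n).continuousOn) (fun n => (((mk 1).2.2).sm n).continuousOn)
      (C := 2 * M ^ 2) (by positivity) h1 h2 fun n z hz => ?_
    have e : Pool.Agent.TH294.RS.wn a h (cx u) (k + 1) n z = (a z : ℂ) *
        (Pool.Agent.TH294.RS.hd h 1 (Pool.Agent.TH294.RS.wn a h (cx u) k) n z -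
          I * Pool.Agent.TH294.RS.hd h I (Pool.Agent.TH294.RS.wn a h (cx u) k) n z) := by
      rw [wn_succ a h (cx u) k n]
      simp only [DP, dd, dx, dy, Pool.Agent.TH294.RS.hd]; ring
    have e2 : ‖(a z : ℂ)‖ ^ 2 ≤ M ^ 2 := by
      rw [norm_real]
      exact pow_le_pow_left₀ (norm_nonneg _) (hM z hz) 2
    rw [e, norm_mul, mul_pow]
    have e3 : ‖Pool.Agent.TH294.RS.hd h 1 (Pool.Agent.TH294.RS.wn a h (cx u) k) n z -
          I * Pool.Agent.TH294.RS.hd h I (Pool.Agent.TH294.RS.wn a h (cx u) k) n z‖ ^ 2 ≤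
        2 * (‖Pool.Agent.TH294.RS.hd h 1 (Pool.Agent.TH294.RS.wn a h (cx u) k) n z‖ ^ 2 +
          ‖Pool.Agent.TH294.RS.hd h I (Pool.Agent.TH294.RS.wn a h (cx u) k) n z‖ ^ 2) := by
      have h3 := norm_sub_le (Pool.Agent.TH294.RS.hd h 1 (Pool.Agent.TH294.RS.wn a h (cx u) k) n z)
        (I * Pool.Agent.TH294.RS.hd h I (Pool.Agent.TH294.RS.wn a h (cx u) k) n z)
      rw [norm_mul, norm_I, one_mul] at h3
      have h4 := pow_le_pow_left₀ (norm_nonneg _) h3 2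
      nlinarith [sq_nonneg (‖Pool.Agent.TH294.RS.hd h 1 (Pool.Agent.TH294.RS.wn a h (cx u) k) n z‖ -
        ‖Pool.Agent.TH294.RS.hd h I (Pool.Agent.TH294.RS.wn a h (cx u) k) n z‖)]
    have := mul_le_mul e2 e3 (by positivity) (by positivity)
    refine this.trans (le_of_eq ?_)
    ring

end

end Pool.Agent.TH421.AC
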